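import Pool.Agent.Helper51_SPV.FIN

/-!
# The bound of Q1 for almost all exponent sets and all coefficients

Let `1/2 < ε < 1` and `τ > 2 (1 - ε)`.  For all primes `p`, `q` with `q ∣ p - 1`, every large set `S` of exponents
and every `k ≤ |S| ^ (1 - τ)`: apart from a proportion `exp (-c log |S| log q)` of them the `k`-subsets `A` of `S` are
such that EVERY nonzero polynomial with exponents in `A`, with arbitrary coefficients in `F_p`, has at most
`ε q` roots in the group `G` of order `q`.  For `S = {0, .., q-1}`: for every `δ < 1`, `k ≤ q ^ δ` and `ε > (1 + δ)/2` the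
bound of the question holds for all coefficient vectors on almost all exponent sets.

PROOF. Let `B` be the exact support of a polynomial `f` with more than `ε q` roots, `|B| = m`, and `g` a generator of
`G`. The sequence `E j = f (g ^ j)` is a linear recurrence with the roots `g ^ a`, `a ∈ B`. By averaging we may assume
(after a translation `z ↦ g ^ t z`) that at most `h = 2 (1 - ε) m` of the values `E 0, .., E (2 m - 1)` are different
from `0`. By Prony's method these values determine `B`: there is a determinant `chi(e, y)`, of degree `m` in the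
`e j`, which for `e = E` vanishes at a point `y` exactly if `y` is one of the `g ^ a`. Fix the positions of the nonzero
values. The polynomials `Φ_B(e) = ∏ chi(e, g ^ c)`, `c ∈ S` not in `B`, of degree at most `m |S|` in `h` variables, are
linearly independent for different `B ⊆ S` of size `m`, because `Φ_B` vanishes at the values of the other sets and not
at the values of `B`. So there are at most `4 ^ m binom (m |S| + h, h) ≤ (30 |S| ^ (2 (1 - ε))) ^ m` such sets `B` in `S`,
none with `4 ^ m < q` (pigeonhole: some dilate of `B` lies in an arc of length `q / 2`), and the union bound gives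
the theorem.
-/

set_option autoImplicit false

namespace Pool.Agent.Results.MP_a19fbd_nt.AlmostAllExponentSets

theorem result (ε τ : ℝ) (h₁ : 1 / 2 < ε) (h₂ : ε < 1) (h₃ : 2 * (1 - ε) < τ) :
    ∃ c : ℝ, 0 < c ∧ ∃ N : ℕ, ∀ p q : ℕ, p.Prime → q.Prime → q ∣ p - 1 →
      ∀ S : Finset ℕ, S ⊆ Finset.range q → N ≤ S.card →
      ∀ k : ℕ, 1 ≤ k → (k : ℝ) * (S.card : ℝ) ^ τ ≤ S.card →
      ({A : Finset ℕ | A ⊆ S ∧ A.card = k ∧ ∃ β : ℕ → ZMod p, (∃ i ∈ A, β i ≠ 0) ∧
          ε * q < {z : ZMod p | z ^ q = 1 ∧ ∑ i ∈ A, β i * z ^ i = 0}.ncard}.ncard : ℝ) ≤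
        Real.exp (-(c * Real.log S.card * Real.log q)) * (S.card.choose k : ℝ) :=
  Pool.Agent.SPV.H51.aes' ε τ h₁ h₂ h₃

end Pool.Agent.Results.MP_a19fbd_nt.AlmostAllExponentSets
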