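import Pool.Agent.Helper14_SPV.AllE

/-!
# Sparse polynomials whose coefficients are short combinations of few residues

`G = {z : z ^ q = 1}` is the subgroup of order `q` of the multiplicative group of `ZMod p`, and
`f(z) = ∑ i ∈ A, β i * z ^ i` is a polynomial with exponents in `A`, `A` a set of at most `q ^ δ` exponents in
`{0, …, q - 1}` (not all of them), not all `β i` are `0`, and the `β i` are integer combinations
`∑ j, n i j * γ j` of `t` residues `γ j` (arbitrary) with coefficients `|n i j| ≤ p ^ η`.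
If `t (η + δ / 2) < ε ^ t`, then `f` has at most `ε q` roots in `G` for all large primes `p`, `q` with
`q ∣ p - 1`.  In particular for every `t` and every `ε > 0` there is a `δ > 0` such that all polynomials with at
most `q ^ δ` terms and at most `t` different coefficients have at most `ε q` roots.
-/

namespace Pool.Agent.Results.MP_a19fbd_nt.FewDistinctCoefficients

theorem result (t : ℕ) (ht : 0 < t) (η δ ε : ℝ) (hη : 0 ≤ η) (hδ : 0 ≤ δ) (hε : 0 < ε)
    (h : t * (η + δ / 2) < ε ^ t) :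
    ∃ N : ℕ, ∀ p q : ℕ, p.Prime → q.Prime → N ≤ p → N ≤ q → q ∣ p - 1 →
      ∀ A : Finset ℕ, A ⊂ Finset.range q → A.Nonempty → (A.card : ℝ) ≤ (q : ℝ) ^ δ →
      ∀ (β : ℕ → ZMod p) (γ : Fin t → ZMod p) (n : ℕ → Fin t → ℤ),
        (∃ i ∈ A, β i ≠ 0) → (∀ i ∈ A, ∀ j, |(n i j : ℝ)| ≤ (p : ℝ) ^ η) →
        (∀ i ∈ A, β i = ∑ j, (n i j : ZMod p) * γ j) →
        ({z : ZMod p | z ^ q = 1 ∧ ∑ i ∈ A, β i * z ^ i = 0}.ncard : ℝ) ≤ ε * q :=
  Pool.Agent.SPV.H14.asyRow t ht η δ ε hη hδ hε h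

end Pool.Agent.Results.MP_a19fbd_nt.FewDistinctCoefficients
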