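import Pool.Agent.Helper14_SPV.AllL

/-!
# Sparse polynomials on the subgroup of order q of `F_p`: the primes with many roots

For a prime `p` with `q ∣ p - 1` let `G = {z : z ^ q = 1}`, the subgroup of order `q` of the multiplicative group of
`ZMod p`. Let `A ⊆ {0, .., q - 1}`, `|A| = k ≥ 1`, and let `P` be a finite set of primes `p ≡ 1 mod q` such that for
every `p ∈ P` some polynomial `f(z) = ∑ i ∈ A, β i * z ^ i` over `F_p`, not zero, has at least `r` roots in `G`. Then
`(∑ p ∈ P, log p) q binom(r, k) ≤ log(k!) (q binom(r, k) + (q - r) binom(q, k))`.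

Consequences, with proofs in `Pool.Agent.SPV.H14.allL`, for all `f` with exponents in `A`:
* if `p ≥ (k!) ^ 2` then `f` has at most `(1 - (1 - κ) (log k)/k) q` roots in `G` (`k`, `q / k` large);
* if `p ≥ exp (q ^ θ)` and `k ≤ q ^ (θ - κ)` then `f` has at most `q ^ (1 - (θ - κ)/k)` roots in `G`;
* for given `ε`, `δ`, `κ` and every large `q` the primes `p` for which some `f` with at most `q ^ δ` terms has
  more than `ε q` roots satisfy `∑ log p ≤ exp (q ^ (δ + κ))`.

PROOF. For a tuple `t` of `k` different elements of `Z/q` the minor `D_t = det (ζ ^ (t i a j))`, `a j` the elements of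
`A`, is not `0` (Chebotarev) and at most `k!`. If for some `u` a translate of `u t` consists of exponents of roots
of `f`, then `D_t` is divisible by the `u`-th prime over `p`. So the sum over `p ∈ P` of `log p` times the number of
these `u` is at most `(q - 1) log k!`, for every `t`. Sum over `t`; a second moment count shows that many `t` have a
translate in the set of the roots.
-/

namespace Pool.Agent.Results.MP_a19fbd_nt.LargePrimes

theorem result (q : ℕ) (hq : q.Prime) (A : Finset ℕ) (hA : A ⊆ Finset.range q) (hne : A.Nonempty)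
    (P : Finset ℕ) (r : ℕ) (hr : r ≤ q)
    (hP : ∀ p ∈ P, p.Prime ∧ q ∣ p - 1 ∧ ∃ β : ℕ → ZMod p, (∃ i ∈ A, β i ≠ 0) ∧
      r ≤ {z : ZMod p | z ^ q = 1 ∧ ∑ i ∈ A, β i * z ^ i = 0}.ncard) :
    (∑ p ∈ P, Real.log p) * (q * (r.choose A.card)) ≤
      Real.log (A.card.factorial) * (q * (r.choose A.card) + (q - r) * (q.choose A.card)) :=
  Pool.Agent.SPV.H14.minRow q hq A hA hne P r hr hP

end Pool.Agent.Results.MP_a19fbd_nt.LargePrimes
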