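import Pool.Agent.Helper14_SPV.AllU

/-!
# Sparse polynomials on the subgroup of order q of `F_p`: a universal lower bound for the number of nonroots

`G = {z : z ^ q = 1}` is the subgroup of order `q` of the multiplicative group of `ZMod p`, and
`f(z) = ∑ i ∈ A, β i * z ^ i` is a polynomial, not zero, with exponents in `A ⊆ {0, .., q - 1}`, `|A| = k`.
For all `p`, `q`, `A`, `β` and `0 < η < 1/3`: if `f` has at least `(1 - η) q` roots in `G`, then
`log q ≤ k η (6 + log (1/η))`.

Hence (theorem `Pool.Agent.SPV.H14.closed`) the number of roots in `G` is at most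
`(1 - 1/(16 (1 + x) log (2 + x))) q`, `x = k / log q`; so the bound of the question holds for `k ≤ C log q`, for every
`C`, with an `ε = ε(C) < 1`, and for `k = q ^ δ` at least about `q / (δ k)` elements of `G` are nonroots.

PROOF (helper20). Let `W` be the set of nonroots and `V` the space of the polynomials with exponents in `A`. For
`Y ⊆ Z/q` let `r(Y)` be the rank of the evaluations at the elements of `Y` on `V`; then `|W - Y| ≥ r(Y) q / k`. Let
`M(r)` be the largest `|Y|` with `r(Y) ≤ r`, so `M(1) = 1` and `M(k) = q`. If a nonzero function of `V` with support `S`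
has `|S - Y| ≥ λ |S|`, a mean value argument gives `M(r) ≤ M(r - 1)/(1 - 1/λ)`. The inequality above gives such growth
for large `r`; for small `r` Castelnuovo's argument gives it, unless a combination of translates of `f` has at
most `k / 2` terms and at most `2 |W|` nonroots: induction on `k`, the start being Dirichlet's theorem.
-/

namespace Pool.Agent.Results.MP_a19fbd_nt.ManyNonroots

theorem result (p q : ℕ) (hp : p.Prime) (hq : q.Prime) (hqp : q ∣ p - 1)
    (A : Finset ℕ) (hA : A ⊆ Finset.range q) (β : ℕ → ZMod p) (hβ : ∃ i ∈ A, β i ≠ 0)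
    (η : ℝ) (h₀ : 0 < η) (h₁ : 3 * η < 1)
    (h : (1 - η) * q ≤ ({z : ZMod p | z ^ q = 1 ∧ ∑ i ∈ A, β i * z ^ i = 0}.ncard : ℝ)) :
    Real.log q ≤ A.card * η * (6 + Real.log (1 / η)) :=
  Pool.Agent.SPV.H14.universal p q hp hq hqp A hA β hβ η h₀ h₁ h

end Pool.Agent.Results.MP_a19fbd_nt.ManyNonroots
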